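import Pool.Agent.J6H78.FC.Close

/-! # Gromov's filling inequality for fillings with conformally homogeneous anisotropic slices

Let `J_1, …, J_k`, `0 ≤ k ≤ d`, be linear maps such that `x, J_1 x, …, J_k x` are orthonormal for all
unit vectors `x` of `ℝ^(d+1)` (for `k = 1` the Hopf field of `ℂ^n`, for `k = 3` the three fields of
`ℍ^n`, for `k = d = 3, 7` the parallelisms of `S³` and `S⁷`). We consider fillings of `S^d` whose metric
in the distance `s < R` from the boundary is
`ds² + κ(s,x)² (b_0(s)² |v|² + ∑_j (b_j(s)² - b_0(s)²) ⟨J_j x, v⟩²)`,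
with the stretches `b_j` along `J_j` and `b_0` in the directions orthogonal to the `J_j`, and a
conformal factor `κ` without any symmetry. So for `κ = 1` this contains the Berger metrics, i.e. all
fillings invariant under the unitary group, and the diagonal left-invariant metrics on `S³`.

The proof: averages over the great circles tangent to `J_j`, and over the great circles nearly
orthogonal to all `J_j`, show that each `f = (mean of κ²)^(1/2) b_j` defines a nonshortcutting metric
`ds² + f(s)² dθ²` on an annulus (`NS`). For such `f` the geodesics of constant angular momentum `c` give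
`π (1 - c) ≤ 2 ∫₀ᵗ √(1 - c²/f²)` (`J_ineq`) if `f` has a value at most `c` on `[0, t]`; integrated with
a suitable weight in `c` they give `∫₀ᵗ f ≥ τ t + ∫_τ^1 arccos`, `τ = min (1, min f)` (`pd_core`). The
right side is the expectation of a stopped random time; for independent levels `c_1, …, c_d` these
times combine to `∫ ∏ f_i ≥ ∫ cos^d` (`Cert.mul`, `profile_ineq`). -/

set_option autoImplicit false

open Real Set MeasureTheory Metric

namespace Pool.Agent.Results.MP_aeade1_gt.AnisotropicSlices

open Pool.Agent.Y499.HC Pool.Agent.Y499.HR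

/-- For every unit vector `x` the vectors `x, J_1 x, …, J_k x` are orthonormal. -/
def OrthoFields {d k : ℕ} (J : Fin k → E d →ₗ[ℝ] E d) : Prop :=
  ∀ x : E d, ‖x‖ = 1 → Orthonormal ℝ (Fin.cons x fun j => J j x : Fin (k + 1) → E d)

/-- The slices of the metric `m` on the collar `[0, R) × S^d` are `κ²` times the form with the
stretch `b (j + 1)` along the vector field `J j` and the stretch `b 0` in the directions orthogonal to
all `J j`; `κ` and the `b j` are continuous and nonnegative. -/
structure Slices {d k : ℕ} (R : ℝ) (m : Met d) (J : Fin k → E d →ₗ[ℝ] E d)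
    (κ : ℝ → E d → ℝ) (b : Fin (k + 1) → ℝ → ℝ) : Prop where
  cont_κ : ContinuousOn (fun p : ℝ × E d => κ p.1 p.2) (Ico 0 R ×ˢ sphere 0 1)
  nonneg_κ : ∀ s ∈ Ico 0 R, ∀ x ∈ sphere (0 : E d) 1, 0 ≤ κ s x
  cont_b : ∀ i, ContinuousOn (b i) (Ico 0 R)
  nonneg_b : ∀ i, ∀ s ∈ Ico 0 R, 0 ≤ b i s
  form : ∀ s ∈ Ico 0 R, ∀ x ∈ sphere (0 : E d) 1, ∀ v : E d, inner ℝ x v = (0 : ℝ) →
    quad (m.g s x) v = κ s x ^ 2 * (b 0 s ^ 2 * ‖v‖ ^ 2 +
      ∑ j, (b j.succ s ^ 2 - b 0 s ^ 2) * inner ℝ (J j x) v ^ 2)

/-- One of the stretches (`b 0` only if there are directions orthogonal to the fields) tends to zero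
along a sequence of slices: the filling closes up. -/
def Closes {d k : ℕ} (R : ℝ) (κ : ℝ → E d → ℝ) (b : Fin (k + 1) → ℝ → ℝ) : Prop :=
  ∃ i : Fin (k + 1), (i = 0 → k < d) ∧
    ∀ ε > 0, ∃ s ∈ Ico 0 R, ∀ x ∈ sphere (0 : E d) 1, κ s x * b i s < ε

/-- Let `d ≥ 2` and let `m = ds² + g_s` be a metric of this kind on the collar `[0, R) × S^d` in which
no curve joins antipodal points of the boundary `s = 0` with a length less than `π`. If `R ≤ π/2`, then
the volume is at least the volume `vol(S^d) ∫₀ᴿ cos^d` of the collar of width `R` of the boundary of the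
round hemisphere. If the filling closes up, then the volume is at least the volume of the round
hemisphere, for every `R > 0`. -/
theorem result (d k : ℕ) (hd : 2 ≤ d) (R : ℝ) (hR0 : 0 < R) (m : Met d) (hm : Good R m)
    (hF : Fermi R m) (hS : NonShort R m) (J : Fin k → E d →ₗ[ℝ] E d) (hJ : OrthoFields J)
    (κ : ℝ → E d → ℝ) (b : Fin (k + 1) → ℝ → ℝ) (hsl : Slices R m J κ b) :
    (R ≤ π / 2 → hemiCollar d R ≤ vol R m) ∧
    (Closes R κ b → hemiCollar d (π / 2) ≤ vol R m) := by
  have key : ∀ L, 0 < L → L ≤ R → L ≤ π / 2 → hemiCollar d L ≤ vol L m := by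
    intro L hL0 hLR hL
    have hI : Ico 0 L ⊆ Ico 0 R := Ico_subset_Ico_right hLR
    exact J6H78.FC.vol_cliff hd hL0 hL (J6H78.FC.good_mono hLR hm) (J6H78.FC.fermi_mono hLR hF)
      (J6H78.FC.nonshort_mono hLR hS) hJ (hsl.cont_κ.mono (prod_mono hI subset_rfl))
      (fun s hs => hsl.nonneg_κ s (hI hs)) (fun i => (hsl.cont_b i).mono hI)
      (fun i s hs => hsl.nonneg_b i s (hI hs)) (fun s hs => hsl.form s (hI hs))
  refine ⟨fun hR => key R hR0 le_rfl hR, ?_⟩
  rintro ⟨i, hi, hcl⟩
  have hw : π / 2 ≤ R := J6H78.FC.width_ge (by omega) hm hF hS hJ hsl.cont_κ hsl.nonneg_κ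
    hsl.cont_b hsl.nonneg_b hsl.form hi hcl
  exact (key (π / 2) (by positivity) hw le_rfl).trans (J6H78.FC.vol_mono hw m)

end Pool.Agent.Results.MP_aeade1_gt.AnisotropicSlices
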