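import Pool.Agent.J6H78.FC.Diag

/-! # Gromov's filling inequality for collars which are diagonal along great circles

Let `m = ds² + g_s` on the collar `[0, R) × S^d`, `s` the distance from the boundary. Suppose that
through every point `x` of `S^d` there are `d` orthogonal great circles whose directions at `x`
diagonalize all the slices `g_s` at `x`, and that the mean square of the stretch of `g_s` along each of
these circles is at most the square of the stretch at `x`. No symmetry is assumed.

Examples: (a) `g_s = ∑ f_i(s,x)² ⟨J_i x, v⟩²` on `S³` or `S⁷`, where `x, J_1 x, …, J_d x` are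
orthonormal, `J_i` linear, and `f_i(s, ·)` is constant along the great circles tangent to `J_i`;
(b) in every dimension `g_s = a(s) |v|² + b(s) K_x(v, v)`, where `K` is a Killing tensor of the round
sphere, i.e. a quadratic form in `x ∧ v`, such as `K_x(v, v) = ⟨Ax, x⟩ |v|² + ⟨Av, v⟩` with a symmetric
matrix `A`: a Killing tensor is constant along every great circle.

The proof works at each point `x` separately: each of the `d` stretches `f_i` at `x` defines a
nonshortcutting metric `ds² + f_i(s)² dθ²` on an annulus, and for such functions
`∫₀ᴿ f_1 ⋯ f_d ≥ ∫₀ᴿ cos^d` (`profile_ineq`). -/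

set_option autoImplicit false

open Real Set MeasureTheory Metric

namespace Pool.Agent.Results.MP_aeade1_gt.GreatCircleDiagonal

open Pool.Agent.Y499.HC Pool.Agent.Y499.HR

/-- Through every point `x` there are `d` great circles with the orthonormal directions `e i` at `x`
such that for every `s` the form `g_s` at `x` is diagonal in the frame `e`, and the mean over the
`i`-th circle of the square of the length of its velocity is at most its value at `x`. -/
def DiagonalSlices {d : ℕ} (R : ℝ) (m : Met d) : Prop :=
  ∀ x ∈ sphere (0 : E d) 1, ∃ e : Fin d → E d, Orthonormal ℝ e ∧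
    (∀ i, inner ℝ x (e i) = (0 : ℝ)) ∧ ∀ s ∈ Ico 0 R,
      (∀ v : E d, inner ℝ x v = (0 : ℝ) →
        quad (m.g s x) v = ∑ i, quad (m.g s x) (e i) * inner ℝ (e i) v ^ 2) ∧
      ∀ i, (∫ θ in (0 : ℝ)..(2 * π), quad (m.g s (cos θ • x + sin θ • e i))
        (-sin θ • x + cos θ • e i)) ≤ 2 * π * quad (m.g s x) (e i)

/-- Let `d ≥ 1`, `0 < R ≤ π/2` and let `m = ds² + g_s` be a metric of this kind on the collar
`[0, R) × S^d` in which no curve joins antipodal points of the boundary `s = 0` with a length less
than `π`. Then its volume is at least the volume `vol(S^d) ∫₀ᴿ cos^d` of the collar of width `R` of the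
boundary of the round hemisphere; for `R = π/2` this is the volume of the hemisphere. -/
theorem result (d : ℕ) (R : ℝ) (hR0 : 0 < R) (hR : R ≤ π / 2) (m : Met d)
    (hm : Good R m) (hF : Fermi R m) (hS : NonShort R m) (hD : DiagonalSlices R m) :
    hemiCollar d R ≤ vol R m :=
  J6H78.FC.vol_diag hR0 hR hm hF hS hD

end Pool.Agent.Results.MP_aeade1_gt.GreatCircleDiagonal
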