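import Pool.Agent.J6H60.FV.Final2

/-!
# Nine twentieths of the hemisphere, in every dimension and for all fillings

Write `d(x, q)` for the (extended) distance functions on the filling `M` of `S^d`, `n = d + 1`, and
`u_G(R, q) = R |G| cos d(G/|G|, q)` on the cone over `M`, `G ∈ ℝ^n`.  For `η ∈ ℝ^n`, `g` standard
Gaussian in `ℝ^n` and `κ` independent with density `8/(3π) (1+κ²)^(-3)`, the maps
`T_η = E[u_{g+κη} g] - η` and `S_η = (R²+|η|²)/6 - E[κ u_{g+κη}]` send the cone over `M` to
`ℝ^n × ℝ`, cover the region above the paraboloid `s = |τ|²/6` (parity), and have Jacobian at most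
`3^(-1/2) exp(S_η - 1/2)` (all this is in the start library).  New here, for a fixed point of the
cone: with `s(x) = (R²+|η|²)/6 - E_κ[κ u_{x+κη}] ≥ 0` the derivative of `-T` is
`1 - A = (1 - S) + E[s(g) g gᵀ] ≥ 1 - S`, the eigenvalues satisfy
`∑ a_i² / (1 - β a_i) ≤ 4 S / 3` for `0 ≤ β < 1/S`, which gives
`|det (A - 1)| ≥ exp (- tr A - 7 S / 10)`, and `T` is injective on `{S_η ≤ 59/100}` (overlap of two
shifted Gaussians through the harmonic mean of the densities, and Stein's identity for `κ`).
-/

set_option autoImplicit false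

open MeasureTheory

namespace Pool.Agent.Results.MP_aeade1_gt.NineTwentieths

open Pool.Agent.H241R3.FV

/-- For every `d ≥ 1`, every compact triangulated nonshortcutting filling of the round sphere `S^d`,
orientable or not and of any topology, has volume at least nine twentieths of the volume
`vol(S^(d+1)) / 2` of the round hemisphere. -/
theorem result (d : ℕ) (hd : 1 ≤ d) (M : Type) [MetricSpace M] [CompactSpace M] (S : Fill d M)
    (hS : S.NonShort) (hT : S.Triangulated) :
    ENNReal.ofReal (9 / 20) *
      ((volume : Measure (EuclideanSpace ℝ (Fin (d + 2)))).toSphere Set.univ / 2) ≤ S.vol := by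
  have h := Pool.Agent.J6H60.FV.final2 d hd M S hS hT
  refine le_trans (le_of_eq ?_) h
  rw [ENNReal.div_eq_inv_mul, ← mul_assoc]
  congr 1
  rw [show (9 / 40 : ℝ) = 9 / 20 * (1 / 2) by norm_num, ENNReal.ofReal_mul (by norm_num)]
  congr 1
  rw [one_div, ENNReal.ofReal_inv_of_pos (by norm_num)]
  norm_num

end Pool.Agent.Results.MP_aeade1_gt.NineTwentieths
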