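import Pool.Agent.J6H78.FC.Mean

/-! # The product of the mean stretches of an arbitrary nonshortcutting collar

Let `m = a ds² + 2 β ds + g_s`, `a ≤ 1`, be any metric on the collar `[0, R) × S^d` in which no curve
joins antipodal points of the boundary with a length less than `π`. For random great circles
`c_1, …, c_n` of `S^d` let `F_i(s)` be at least the root mean square of the stretch of `g_s` at each
point `c_i(θ)` in the direction of `c_i`. Then `∫₀ᴿ F_1 ⋯ F_n ds ≥ ∫₀ᴿ cos^n`.

With `n = d` fixed orthogonal great circles, or fields of great circles, this is a lower bound for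
volumes (see AnisotropicSlices and GreatCircleDiagonal); if all great circles are uniformly distributed,
it says that `∫₀ᴿ (mean of tr g_s / d)^(n/2) ds ≥ ∫₀ᴿ cos^n` (`mean_ineq`). -/

set_option autoImplicit false

open Real Set MeasureTheory Metric

namespace Pool.Agent.Results.MP_aeade1_gt.ProductOfStretches

open Pool.Agent.Y499.HC Pool.Agent.Y499.HR

/-- The great circle through `p.1` in the direction `p.2`. -/
noncomputable def circle {d : ℕ} (p : E d × E d) (θ : ℝ) : E d := cos θ • p.1 + sin θ • p.2

/-- The velocity of the great circle through `p.1` in the direction `p.2`. -/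
noncomputable def velocity {d : ℕ} (p : E d × E d) (θ : ℝ) : E d := -sin θ • p.1 + cos θ • p.2

/-- `P` is a law of random great circles: a probability measure on the orthonormal pairs, and the
mean over `P` of the shift of the metric in the direction of the circles vanishes (for instance because
the shift `β` is zero). -/
structure IsCircleLaw {d : ℕ} (R : ℝ) (m : Met d) (P : Measure (E d × E d)) : Prop where
  prob : IsProbabilityMeasure P
  orthonormal : ∀ᵐ p ∂P, ‖p.1‖ = 1 ∧ ‖p.2‖ = 1 ∧ inner ℝ p.1 p.2 = (0 : ℝ)
  shift : ∀ s ∈ Ico 0 R, ∀ θ, ∫ p, inner ℝ (m.β s (circle p θ)) (velocity p θ) ∂P = (0 : ℝ)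

/-- `F` is continuous and nonnegative and bounds the root mean square of the stretch of `g_s` along
the random great circles of law `P`. -/
structure BoundsStretch {d : ℕ} (R : ℝ) (m : Met d) (P : Measure (E d × E d)) (F : ℝ → ℝ) :
    Prop where
  cont : ContinuousOn F (Ico 0 R)
  nonneg : ∀ s ∈ Ico 0 R, 0 ≤ F s
  bound : ∀ s ∈ Ico 0 R, ∀ θ, ∫ p, quad (m.g s (circle p θ)) (velocity p θ) ∂P ≤ F s ^ 2

/-- Let `0 < R ≤ π/2` and let `m` be a metric on the collar `[0, R) × S^d`, with a lapse at most
one, in which no curve joins antipodal points of the boundary `s = 0` with a length less than `π`. If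
`F i` bounds the root mean square of the stretch of the slices along the random great circles of law
`P i`, `i = 1, …, n`, then `∫₀ᴿ F_1 ⋯ F_n ≥ ∫₀ᴿ cos^n`. -/
theorem result (d n : ℕ) (R : ℝ) (hR0 : 0 < R) (hR : R ≤ π / 2) (m : Met d) (hm : Good R m)
    (hS : NonShort R m) (P : Fin n → Measure (E d × E d)) (hP : ∀ i, IsCircleLaw R m (P i))
    (F : Fin n → ℝ → ℝ) (hF : ∀ i, BoundsStretch R m (P i) (F i)) :
    ENNReal.ofReal (∫ s in (0 : ℝ)..R, cos s ^ n) ≤
      ∫⁻ s in Ioo 0 R, ENNReal.ofReal (∏ i, F i s) := by
  have hNS : ∀ i, J6H78.FC.NS R (F i) := fun i => by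
    have := (hP i).prob
    exact J6H78.FC.NS_of_law' hm hS (P i) (hP i).orthonormal (hP i).shift (hF i).cont (hF i).bound
  refine (J6H78.FC.profile_ineq hR0 hR hNS (fun i => (hF i).cont) fun i => (hF i).nonneg).trans
    (le_of_eq (setLIntegral_congr_fun measurableSet_Ioo fun s hs => ?_))
  exact (ENNReal.ofReal_prod_of_nonneg fun i _ => (hF i).nonneg s ⟨hs.1.le, hs.2⟩).symm

end Pool.Agent.Results.MP_aeade1_gt.ProductOfStretches
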